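import Pool.Agent.helper11.VQ.Spec3b

/-!
# Row vq:CNV (MP_07c750_an): staying close
-/

set_option autoImplicit false

open scoped MatrixGroups ContDiff Topology UpperHalfPlane ComplexConjugate ENNReal
open UpperHalfPlane MeasureTheory Filter Set

namespace Pool.Agent.VQ

open Pool.Agent.RS
open Pool.Agent.RPQ (CEig mean VV IsOp IsMul OProj wrd PJ nst mks MO Net Cl)

noncomputable section

/-! ### Distances -/

theorem CNV_sinh (h : SL(2, ℝ)) : Real.sinh (dist (h • I : ℍ) I / 2) ^ 2 =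
    ((h.1 0 0 - h.1 1 1) ^ 2 + (h.1 0 1 + h.1 1 0) ^ 2) / 4 := by
  set a := h.1 0 0 with ha
  set b := h.1 0 1 with hb
  set c := h.1 1 0 with hc
  set d := h.1 1 1 with hd
  have hdet : a * d - b * c = 1 := by
    have := h.2
    rw [Matrix.det_fin_two] at this
    exact this
  have hD : 0 < c ^ 2 + d ^ 2 := by
    rcases eq_or_ne c 0 with h0 | h0
    · have : d ≠ 0 := by
        intro h1
        rw [h0, h1] at hdet
        norm_num at hdet
      positivity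
    · positivity
  have hz : ((h • I : ℍ) : ℂ) = (((b * d + a * c) / (c ^ 2 + d ^ 2) : ℝ) : ℂ) +
      ((1 / (c ^ 2 + d ^ 2) : ℝ) : ℂ) * Complex.I := by
    rw [UpperHalfPlane.coe_specialLinearGroup_apply]
    have h1 : ((algebraMap ℝ ℝ (h.1 0 0) : ℂ) * (I : ℍ) + (algebraMap ℝ ℝ (h.1 0 1) : ℂ)) =
        (a : ℂ) * Complex.I + b := by
      simp [ha, hb]
    have h2 : ((algebraMap ℝ ℝ (h.1 1 0) : ℂ) * (I : ℍ) + (algebraMap ℝ ℝ (h.1 1 1) : ℂ)) =
        (c : ℂ) * Complex.I + d := by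
      simp [hc, hd]
    have h3 : ((c : ℂ) * Complex.I + d) ≠ 0 := by
      intro h0
      have h4 := congrArg Complex.normSq h0
      rw [Complex.normSq_apply] at h4
      simp at h4
      nlinarith
    have h5 : ((c : ℂ) ^ 2 + (d : ℂ) ^ 2) ≠ 0 := by
      have : (((c ^ 2 + d ^ 2 : ℝ)) : ℂ) ≠ 0 := by exact_mod_cast hD.ne'
      simpa using this
    have h6 : (a : ℂ) * d - b * c = 1 := by exact_mod_cast hdet
    show ((algebraMap ℝ ℝ (h.1 0 0) : ℂ) * (I : ℍ) + (algebraMap ℝ ℝ (h.1 0 1) : ℂ)) /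
      ((algebraMap ℝ ℝ (h.1 1 0) : ℂ) * (I : ℍ) + (algebraMap ℝ ℝ (h.1 1 1) : ℂ)) = _
    rw [h1, h2]
    push_cast
    rw [div_eq_iff h3]
    field_simp
    linear_combination (Complex.I * d - c) * h6 - c * Complex.I_sq
  have him : (h • I : ℍ).im = 1 / (c ^ 2 + d ^ 2) := by
    have h1 := congrArg Complex.im hz
    simp only [Complex.add_im, Complex.ofReal_im, Complex.mul_im, Complex.ofReal_re, Complex.I_im,
      Complex.I_re, mul_one, mul_zero, zero_add, add_zero] at h1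
    exact h1
  have hsub : ((h • I : ℍ) : ℂ) - ((I : ℍ) : ℂ) = (((b * d + a * c) / (c ^ 2 + d ^ 2) : ℝ) : ℂ) +
      ((1 / (c ^ 2 + d ^ 2) - 1 : ℝ) : ℂ) * Complex.I := by
    rw [hz]
    have : ((I : ℍ) : ℂ) = Complex.I := rfl
    rw [this]
    push_cast
    ring
  have hdist : dist ((h • I : ℍ) : ℂ) ((I : ℍ) : ℂ) ^ 2 =
      ((b * d + a * c) / (c ^ 2 + d ^ 2)) ^ 2 + (1 / (c ^ 2 + d ^ 2) - 1) ^ 2 := by
    rw [dist_eq_norm, hsub, Complex.sq_norm, Complex.normSq_add_mul_I]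
  rw [UpperHalfPlane.sinh_half_dist, div_pow, mul_pow, hdist, him]
  have hI : (I : ℍ).im = 1 := rfl
  rw [hI, mul_one, Real.sq_sqrt (by positivity)]
  field_simp
  have key : (b * d + a * c) ^ 2 + (1 - (c ^ 2 + d ^ 2)) ^ 2 =
      (c ^ 2 + d ^ 2) * ((a - d) ^ 2 + (b + c) ^ 2) := by
    have e1 : (1 : ℝ) = a * d - b * c := hdet.symm
    linear_combination (2 * (c ^ 2 + d ^ 2) - (a * d - b * c) - 1) * (hdet) * (1)
  nlinarith [key]

theorem CNV_le (h : SL(2, ℝ)) {ε : ℝ} (hε : 0 ≤ ε) (h1 : |h.1 0 0 - h.1 1 1| ≤ 2 * ε)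
    (h2 : |h.1 0 1 + h.1 1 0| ≤ 2 * ε) : dist (h • I : ℍ) I ≤ 3 * ε := by
  have h3 := CNV_sinh h
  have h4 : 0 ≤ dist (h • I : ℍ) I / 2 := by positivity
  have h5 : dist (h • I : ℍ) I / 2 ≤ Real.sinh (dist (h • I : ℍ) I / 2) :=
    Real.self_le_sinh_iff.2 h4
  have h6 : (h.1 0 0 - h.1 1 1) ^ 2 ≤ (2 * ε) ^ 2 := sq_le_sq' (abs_le.1 h1).1 (abs_le.1 h1).2
  have h7 : (h.1 0 1 + h.1 1 0) ^ 2 ≤ (2 * ε) ^ 2 := sq_le_sq' (abs_le.1 h2).1 (abs_le.1 h2).2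
  have h8 : (dist (h • I : ℍ) I / 2) ^ 2 ≤ Real.sinh (dist (h • I : ℍ) I / 2) ^ 2 :=
    pow_le_pow_left₀ h4 h5 2
  have h9 : (dist (h • I : ℍ) I) ^ 2 ≤ (3 * ε) ^ 2 := by nlinarith
  exact abs_le_of_sq_le_sq' h9 (by positivity) |>.2

theorem CNV_nr {h : SL(2, ℝ)} {ε : ℝ} (hε : 0 ≤ ε) (hε1 : ε ≤ 1 / 8) (hh : EN.nr ε h) :
    dist (h • I : ℍ) I ≤ 1 := by
  have h00 := hh 0 0
  have h01 := hh 0 1
  have h10 := hh 1 0
  have h11 := hh 1 1
  simp only [Matrix.one_apply_eq, Matrix.one_apply_ne (show (0 : Fin 2) ≠ 1 by decide),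
    Matrix.one_apply_ne (show (1 : Fin 2) ≠ 0 by decide), sub_zero] at h00 h01 h10 h11
  have e1 : |h.1 0 0 - h.1 1 1| ≤ 2 * ε := by
    have := abs_sub (h.1 0 0 - 1) (h.1 1 1 - 1)
    rw [sub_sub_sub_cancel_right] at this
    linarith
  have e2 : |h.1 0 1 + h.1 1 0| ≤ 2 * ε := by
    have := abs_add_le (h.1 0 1) (h.1 1 0)
    linarith
  have := CNV_le h hε e1 e2
  linarith

theorem CNV_dist (g g' : SL(2, ℝ)) : dist (g • I : ℍ) (g' • I) = dist ((g'⁻¹ * g) • I : ℍ) I := by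
  rw [← dist_smul (M := SL(2, ℝ)) g'⁻¹ (g • I : ℍ) (g' • I), ← mul_smul, ← mul_smul,
    inv_mul_cancel, one_smul]

theorem CNV_kI (θ : ℝ) : (kM θ • I : ℍ) = I := by
  have h1 : Real.sinh (dist (kM θ • I : ℍ) I / 2) ^ 2 = 0 := by
    rw [CNV_sinh]
    simp [kM]
  have h2 : Real.sinh (dist (kM θ • I : ℍ) I / 2) = 0 := by
    rwa [sq_eq_zero_iff] at h1
  rw [Real.sinh_eq_zero] at h2
  exact dist_le_zero.1 (by linarith)

theorem CNV_kadd (s t : ℝ) : kM (s + t) = kM s * kM t := by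
  apply Subtype.ext
  rw [Matrix.SpecialLinearGroup.coe_mul]
  simp only [kM, Matrix.mul_fin_two, Real.cos_add, Real.sin_add]
  ext i j
  fin_cases i <;> fin_cases j <;> simp <;> ring

theorem CNV_aI (t : ℝ) : dist (aM t • I : ℍ) I ≤ |t| := by
  have h1 : Real.sinh (dist (aM t • I : ℍ) I / 2) ^ 2 = Real.sinh (|t| / 2) ^ 2 := by
    rw [CNV_sinh]
    have h2 : Real.sinh (|t| / 2) ^ 2 = Real.sinh (t / 2) ^ 2 := by
      rcases abs_cases t with ⟨h, _⟩ | ⟨h, _⟩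
      · rw [h]
      · rw [h, neg_div, Real.sinh_neg, neg_sq]
    rw [h2, Real.sinh_eq]
    simp only [aM]
    simp
    ring
  have h2 : Real.sinh (dist (aM t • I : ℍ) I / 2) = Real.sinh (|t| / 2) := by
    apply (pow_left_inj₀ _ _ (two_ne_zero)).1 h1
    · exact Real.sinh_nonneg_iff.2 (by positivity)
    · exact Real.sinh_nonneg_iff.2 (by positivity)
  have h3 := Real.sinh_injective h2
  linarith

/-! ### Matrices near the identity -/

theorem CNV_mono {a b : ℝ} {h : SL(2, ℝ)} (hab : a ≤ b) (hh : EN.nr a h) : EN.nr b h :=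
  fun i j => (hh i j).trans_le hab

theorem CNV_one {a : ℝ} (ha : 0 < a) : EN.nr a (1 : SL(2, ℝ)) := by
  intro i j
  rw [Matrix.SpecialLinearGroup.coe_one, sub_self, abs_zero]
  exact ha

theorem CNV_mul {η r : ℝ} {h b : SL(2, ℝ)} (hη : 0 < η) (hh : EN.nr η h)
    (hb : EN.nr r b) : EN.nr (η + r + 2 * η * r) (h * b) := by
  intro i j
  have h1 : (h * b).1 i j - (1 : Matrix (Fin 2) (Fin 2) ℝ) i j =
      (h.1 i j - (1 : Matrix (Fin 2) (Fin 2) ℝ) i j) + (b.1 i j - (1 : Matrix (Fin 2) (Fin 2) ℝ) i j) +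
      ((h.1 i 0 - (1 : Matrix (Fin 2) (Fin 2) ℝ) i 0) * (b.1 0 j - (1 : Matrix (Fin 2) (Fin 2) ℝ) 0 j) +
      (h.1 i 1 - (1 : Matrix (Fin 2) (Fin 2) ℝ) i 1) * (b.1 1 j - (1 : Matrix (Fin 2) (Fin 2) ℝ) 1 j)) := by
    have h0 : h.1 * b.1 - 1 = (h.1 - 1) + (b.1 - 1) + (h.1 - 1) * (b.1 - 1) := by noncomm_ring
    have h2 := congrFun (congrFun h0 i) j
    simp only [Matrix.sub_apply, Matrix.add_apply, Matrix.mul_apply, Fin.sum_univ_two] at h2
    rw [Matrix.SpecialLinearGroup.coe_mul, Matrix.mul_apply, Fin.sum_univ_two]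
    exact h2
  rw [h1]
  have e1 : |(h.1 i 0 - (1 : Matrix (Fin 2) (Fin 2) ℝ) i 0) *
      (b.1 0 j - (1 : Matrix (Fin 2) (Fin 2) ℝ) 0 j)| ≤ η * r := by
    rw [abs_mul]
    exact mul_le_mul (hh i 0).le (hb 0 j).le (abs_nonneg _) hη.le
  have e2 : |(h.1 i 1 - (1 : Matrix (Fin 2) (Fin 2) ℝ) i 1) *
      (b.1 1 j - (1 : Matrix (Fin 2) (Fin 2) ℝ) 1 j)| ≤ η * r := by
    rw [abs_mul]
    exact mul_le_mul (hh i 1).le (hb 1 j).le (abs_nonneg _) hη.le
  have e3 := hh i j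
  have e4 := hb i j
  have a1 := abs_add_le ((h.1 i j - (1 : Matrix (Fin 2) (Fin 2) ℝ) i j) +
    (b.1 i j - (1 : Matrix (Fin 2) (Fin 2) ℝ) i j))
    ((h.1 i 0 - (1 : Matrix (Fin 2) (Fin 2) ℝ) i 0) * (b.1 0 j - (1 : Matrix (Fin 2) (Fin 2) ℝ) 0 j) +
    (h.1 i 1 - (1 : Matrix (Fin 2) (Fin 2) ℝ) i 1) * (b.1 1 j - (1 : Matrix (Fin 2) (Fin 2) ℝ) 1 j))
  have a2 := abs_add_le (h.1 i j - (1 : Matrix (Fin 2) (Fin 2) ℝ) i j)
    (b.1 i j - (1 : Matrix (Fin 2) (Fin 2) ℝ) i j)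
  have a3 := abs_add_le ((h.1 i 0 - (1 : Matrix (Fin 2) (Fin 2) ℝ) i 0) *
    (b.1 0 j - (1 : Matrix (Fin 2) (Fin 2) ℝ) 0 j))
    ((h.1 i 1 - (1 : Matrix (Fin 2) (Fin 2) ℝ) i 1) * (b.1 1 j - (1 : Matrix (Fin 2) (Fin 2) ℝ) 1 j))
  linarith

theorem CNV_kinv (θ : ℝ) : (kM θ)⁻¹ = kM (-θ) := by
  rw [inv_eq_iff_mul_eq_one, ← CNV_kadd, add_neg_cancel]
  apply Subtype.ext
  ext i j
  fin_cases i <;> fin_cases j <;> simp [kM]

theorem CNV_kle (θ : ℝ) (i j : Fin 2) : |(kM θ).1 i j| ≤ 1 := by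
  fin_cases i <;> fin_cases j
  · simpa [kM] using Real.abs_cos_le_one θ
  · simpa [kM] using Real.abs_sin_le_one θ
  · simpa [kM] using Real.abs_sin_le_one θ
  · simpa [kM] using Real.abs_cos_le_one θ

theorem CNV_conj {η : ℝ} {h : SL(2, ℝ)} (θ : ℝ) (hh : EN.nr η h) :
    EN.nr (4 * η) ((kM θ)⁻¹ * h * kM θ) := by
  intro i j
  have h0 : ((kM θ)⁻¹ * kM θ).1 i j = (1 : Matrix (Fin 2) (Fin 2) ℝ) i j := by
    rw [inv_mul_cancel, Matrix.SpecialLinearGroup.coe_one]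
  have h1 : ((kM θ)⁻¹ * h * kM θ).1 i j - (1 : Matrix (Fin 2) (Fin 2) ℝ) i j =
      (kM θ)⁻¹.1 i 0 * (h.1 0 0 - (1 : Matrix (Fin 2) (Fin 2) ℝ) 0 0) * (kM θ).1 0 j +
      (kM θ)⁻¹.1 i 0 * (h.1 0 1 - (1 : Matrix (Fin 2) (Fin 2) ℝ) 0 1) * (kM θ).1 1 j +
      (kM θ)⁻¹.1 i 1 * (h.1 1 0 - (1 : Matrix (Fin 2) (Fin 2) ℝ) 1 0) * (kM θ).1 0 j +
      (kM θ)⁻¹.1 i 1 * (h.1 1 1 - (1 : Matrix (Fin 2) (Fin 2) ℝ) 1 1) * (kM θ).1 1 j := by
    rw [← h0]
    simp only [Matrix.SpecialLinearGroup.coe_mul, Matrix.mul_apply, Fin.sum_univ_two,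
      Matrix.one_apply_eq, Matrix.one_apply_ne (show (0 : Fin 2) ≠ 1 by decide),
      Matrix.one_apply_ne (show (1 : Fin 2) ≠ 0 by decide)]
    ring
  rw [h1]
  have k1 : ∀ (a b c e : Fin 2), |(kM θ)⁻¹.1 i a * (h.1 b c - (1 : Matrix (Fin 2) (Fin 2) ℝ) b c) *
      (kM θ).1 e j| ≤ |h.1 b c - (1 : Matrix (Fin 2) (Fin 2) ℝ) b c| := by
    intro a b c e
    rw [abs_mul, abs_mul]
    have e1 : |(kM θ)⁻¹.1 i a| ≤ 1 := by rw [CNV_kinv]; exact CNV_kle _ _ _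
    have e2 := CNV_kle θ e j
    have e3 := abs_nonneg (h.1 b c - (1 : Matrix (Fin 2) (Fin 2) ℝ) b c)
    calc |(kM θ)⁻¹.1 i a| * |h.1 b c - (1 : Matrix (Fin 2) (Fin 2) ℝ) b c| * |(kM θ).1 e j|
        ≤ 1 * |h.1 b c - (1 : Matrix (Fin 2) (Fin 2) ℝ) b c| * 1 :=
          mul_le_mul (mul_le_mul_of_nonneg_right e1 e3) e2 (abs_nonneg _) (by rw [one_mul]; exact e3)
      _ = _ := by ring
  have e00 := (k1 0 0 0 0).trans_lt (hh 0 0)
  have e01 := (k1 0 0 1 1).trans_lt (hh 0 1)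
  have e10 := (k1 1 1 0 0).trans_lt (hh 1 0)
  have e11 := (k1 1 1 1 1).trans_lt (hh 1 1)
  refine (abs_add_le _ _).trans_lt ?_
  refine (add_lt_add_of_le_of_lt ((abs_add_le _ _).trans (add_le_add_left (abs_add_le _ _) _)) e11).trans_le ?_
  linarith


theorem CNV_ok {Γ : Subgroup SL(2, ℝ)} {δ δ' : ℝ} {B : ℕ → ℝ} {D : Dyn} (h : OKD Γ δ B D)
    (hd : δ ≤ δ') : OKD Γ δ' B D :=
  { h with pot := { h.pot with near := fun g v hv n hn => (h.pot.near g v hv n hn).trans hd } }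

/-! ### The flow -/

theorem CNV_kz : kM (((0 : ℕ) : ℝ) * (Real.pi / 2)) = 1 := by
  apply Subtype.ext
  ext i j
  fin_cases i <;> fin_cases j <;> simp [kM]

theorem CNV_ks (i : ℕ) : kM (((i + 1 : ℕ) : ℝ) * (Real.pi / 2)) =
    kM ((i : ℝ) * (Real.pi / 2)) * kM (Real.pi / 2) := by
  rw [← CNV_kadd]
  congr 1
  push_cast
  ring

theorem CNV_rev {fl : ℝ → SL(2, ℝ) → SL(2, ℝ)}
    (hrev : ∀ (t : ℝ) (g : SL(2, ℝ)), fl (-t) (g * kM (Real.pi / 2)) = fl t g * kM (Real.pi / 2))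
    (i : ℕ) : ∀ (v : ℝ) (y : SL(2, ℝ)), fl v y * kM ((i : ℝ) * (Real.pi / 2)) =
      fl ((-1) ^ i * v) (y * kM ((i : ℝ) * (Real.pi / 2))) := by
  induction i with
  | zero =>
    intro v y
    rw [CNV_kz, mul_one, mul_one, pow_zero, one_mul]
  | succ i ih =>
    intro v y
    rw [CNV_ks, ← mul_assoc, ih, ← mul_assoc, ← hrev]
    congr 1
    ring

theorem CNV_kk (g : SL(2, ℝ)) (i j : Fin 2) :
    (g * kM (((2 : ℕ) : ℝ) * (Real.pi / 2))).1 i j = -(g.1 i j) := by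
  have h1 : (((2 : ℕ) : ℝ) * (Real.pi / 2)) = Real.pi := by push_cast; ring
  rw [h1, Matrix.SpecialLinearGroup.coe_mul, Matrix.mul_apply, Fin.sum_univ_two]
  fin_cases j <;> simp [kM]

theorem CNV_bo {r : ℝ} {b : SL(2, ℝ)} (hb : b ∈ Bo r) :
    EN.nr r (b * kM (((0 : ℕ) : ℝ) * (Real.pi / 2))) ∨
      EN.nr r (b * kM (((2 : ℕ) : ℝ) * (Real.pi / 2))) := by
  rcases hb with hb | hb
  · left
    rw [CNV_kz, mul_one]
    exact hb
  · right
    intro i j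
    rw [CNV_kk]
    have := hb i j
    rw [← abs_neg, neg_add] at this
    exact this

/-- Gronwall, the form of FLG -/
def CNV_G (D : Dyn) (C c0 : ℝ) : Prop := ∀ (E E' t η : ℝ) (g g' : SL(2, ℝ)), |E| ≤ 1 / 8 →
  |E'| ≤ 1 / 8 → 0 < η → EN.nr η (g⁻¹ * g') → |E - E'| ≤ η → η * Real.exp (C * |t|) ≤ c0 →
  EN.nr (C * η * Real.exp (C * |t|)) ((D.fl E t g)⁻¹ * D.fl E' t g')

theorem CNV_fin {D : Dyn} {C c0 : ℝ} (hC : 1 ≤ C) (hF : CNV_G D C c0) (x θ η : ℝ)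
    (A B : SL(2, ℝ)) (hη : 0 < η) (h1 : EN.nr η (B⁻¹ * A))
    (h2 : 4 * η * Real.exp (C * |x|) ≤ c0) (h3 : C * (4 * η) * Real.exp (C * |x|) ≤ 1 / 8) :
    dist (D.fl 0 x (A * kM θ) • I : ℍ) (D.fl 0 x (B * kM θ) • I) ≤ 1 := by
  have h4 : EN.nr (4 * η) ((B * kM θ)⁻¹ * (A * kM θ)) := by
    have e1 : (B * kM θ)⁻¹ * (A * kM θ) = (kM θ)⁻¹ * (B⁻¹ * A) * kM θ := by group
    rw [e1]
    exact CNV_conj θ h1
  have h5 := hF 0 0 x (4 * η) (B * kM θ) (A * kM θ) (by norm_num) (by norm_num) (by positivity) h4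
    (by rw [sub_self, abs_zero]; positivity) h2
  rw [CNV_dist]
  exact CNV_nr (by positivity) h3 h5

/-- between `s` and `s + v` -/
theorem CNV_chain {D : Dyn} {C c0 ρ1 t r : ℝ} {N : ℕ} {w : ℕ → SL(2, ℝ) × ℝ} (hC : 1 ≤ C)
    (hF : CNV_G D C c0)
    (hadd : ∀ E : ℝ, |E| ≤ 1 / 8 → ∀ (s t : ℝ) (g : SL(2, ℝ)), D.fl E (s + t) g = D.fl E s (D.fl E t g))
    (hrev : ∀ E : ℝ, |E| ≤ 1 / 8 → ∀ (t : ℝ) (g : SL(2, ℝ)),
      D.fl E (-t) (g * kM (Real.pi / 2)) = D.fl E t g * kM (Real.pi / 2))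
    (hρ : 0 < ρ1) (hρ8 : ρ1 ≤ 1 / 8) (ht : 1 ≤ t) (hr : 0 < r) (hrρ : r ≤ ρ1) (hJP : JP D t r N w)
    (s v : ℝ) (hs : 0 ≤ s) (hv : 0 < v) (hvt : v ≤ t) (hsv : s + v ≤ N * t)
    (hc : 3 * C * ρ1 * Real.exp (C * v) ≤ c0) :
    ∃ i' : ℕ, (i' = 0 ∨ i' = 2) ∧ EN.nr (3 * C ^ 2 * ρ1 * Real.exp (C * v))
      ((D.fl 0 v (frZ D t w s))⁻¹ * (frZ D t w (s + v) * kM ((i' : ℝ) * (Real.pi / 2)))) := by
  have ht0 : 0 < t := by linarith
  have hC0 : 0 < C := by linarith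
  set j := ⌊s / t⌋₊ with hj
  have hj1 : (j : ℝ) * t ≤ s := by
    have := Nat.floor_le (div_nonneg hs ht0.le)
    rwa [← hj, le_div_iff₀ ht0] at this
  have hj2 : s < (j + 1) * t := by
    have := Nat.lt_floor_add_one (s / t)
    rwa [← hj, div_lt_iff₀ ht0] at this
  have hjN : j < N := by
    have h1 : (j : ℝ) * t < N * t := by linarith
    have h2 := lt_of_mul_lt_mul_right h1 ht0.le
    exact_mod_cast h2
  obtain ⟨hNb, hE1, hE2⟩ := hJP j hjN
  have hr8 : r ≤ 1 / 8 := hrρ.trans hρ8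
  set E := (w j).2 with hE
  set g := frZ D t w s with hg
  have hgdef : g = D.fl E (s - j * t) (w j).1 := rfl
  have hE8 : |E| ≤ 1 / 8 := hE1.trans hr8
  have h08 : |(0 : ℝ)| ≤ 1 / 8 := by norm_num
  have hexp : ∀ u : ℝ, 0 ≤ u → 1 ≤ Real.exp (C * u) := fun u hu =>
    Real.one_le_exp (by positivity)
  -- the first comparison
  have hcomp : ∀ u : ℝ, 0 ≤ u → u ≤ v →
      EN.nr (C * ρ1 * Real.exp (C * u)) ((D.fl 0 u g)⁻¹ * D.fl E u g) := by
    intro u hu huv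
    have h1 := hF 0 E u ρ1 g g h08 hE8 hρ (by rw [inv_mul_cancel]; exact CNV_one hρ)
      (by rw [zero_sub, abs_neg]; exact hE1.trans hrρ) (by
        rw [abs_of_nonneg hu]
        have h2 : Real.exp (C * u) ≤ Real.exp (C * v) :=
          Real.exp_le_exp.2 (mul_le_mul_of_nonneg_left huv hC0.le)
        have h3 : ρ1 * Real.exp (C * u) ≤ ρ1 * Real.exp (C * v) :=
          mul_le_mul_of_nonneg_left h2 hρ.le
        have h4 : 0 < ρ1 * Real.exp (C * v) := by positivity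
        nlinarith)
    rwa [abs_of_nonneg hu] at h1
  set j' := ⌊(s + v) / t⌋₊ with hj'
  have hj'1 : (j' : ℝ) * t ≤ s + v := by
    have := Nat.floor_le (div_nonneg (add_nonneg hs hv.le) ht0.le)
    rwa [← hj', le_div_iff₀ ht0] at this
  have hj'2 : s + v < (j' + 1) * t := by
    have := Nat.lt_floor_add_one ((s + v) / t)
    rwa [← hj', div_lt_iff₀ ht0] at this
  have hjj : j ≤ j' := by
    have h1 : (j : ℝ) * t < (j' + 1 : ℕ) * t := by push_cast; linarith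
    have h2 := lt_of_mul_lt_mul_right h1 ht0.le
    have h3 : j < j' + 1 := by exact_mod_cast h2
    omega
  have hjj' : j' ≤ j + 1 := by
    have h1 : (j' : ℝ) * t < (j + 2 : ℕ) * t := by push_cast; linarith
    have h2 := lt_of_mul_lt_mul_right h1 ht0.le
    have h3 : j' < j + 2 := by exact_mod_cast h2
    omega
  have hA : frZ D t w (s + v) = D.fl (w j').2 (s + v - j' * t) (w j').1 := rfl
  rcases (by omega : j' = j ∨ j' = j + 1) with h | h
  · -- no jump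
    refine ⟨0, Or.inl rfl, ?_⟩
    have hA' : frZ D t w (s + v) = D.fl E v g := by
      rw [hA, h, hgdef, ← hadd E hE8]
      congr 1
      ring
    rw [hA', CNV_kz, mul_one]
    refine CNV_mono ?_ (hcomp v hv.le le_rfl)
    have h4 : 0 < ρ1 * Real.exp (C * v) := by positivity
    have h5 : C ≤ 3 * C ^ 2 := by nlinarith
    calc C * ρ1 * Real.exp (C * v) = C * (ρ1 * Real.exp (C * v)) := by ring
      _ ≤ 3 * C ^ 2 * (ρ1 * Real.exp (C * v)) := mul_le_mul_of_nonneg_right h5 h4.le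
      _ = _ := by ring
  · -- one jump
    have hv1 : 0 ≤ (j + 1) * t - s := by linarith
    rw [h] at hj'1
    push_cast at hj'1
    set v1 := (j + 1) * t - s with hv1d
    set v2 := s + v - (j + 1) * t with hv2d
    have hv2 : 0 ≤ v2 := by linarith
    have hv12 : v2 + v1 = v := by rw [hv1d, hv2d]; ring
    have hv1v : v1 ≤ v := by linarith
    have hE' : |(w (j + 1)).2| ≤ 1 / 8 := hE2.trans hr8
    have hph : (D.ph t (w j)).1 = D.fl E v1 g := by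
      show D.fl E t (w j).1 = _
      rw [hgdef, ← hadd E hE8]
      congr 1
      rw [hv1d]
      ring
    have hb : (D.fl E v1 g)⁻¹ * (w (j + 1)).1 ∈ Bo r := by
      rw [← hph]
      exact hNb.1
    have key : ∀ i' : ℕ, (i' = 0 ∨ i' = 2) →
        EN.nr r ((D.fl E v1 g)⁻¹ * (w (j + 1)).1 * kM ((i' : ℝ) * (Real.pi / 2))) →
        EN.nr (3 * C ^ 2 * ρ1 * Real.exp (C * v)) ((D.fl 0 v g)⁻¹ *
          (frZ D t w (s + v) * kM ((i' : ℝ) * (Real.pi / 2)))) := by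
      intro i' hi' hnr
      set η1 := C * ρ1 * Real.exp (C * v1) with hη1
      have hη1p : 0 < η1 := by positivity
      have hρη : ρ1 ≤ η1 := by
        have e1 := hexp v1 hv1
        have e2 : 1 ≤ C * Real.exp (C * v1) := by nlinarith
        have e3 : ρ1 * 1 ≤ ρ1 * (C * Real.exp (C * v1)) := mul_le_mul_of_nonneg_left e2 hρ.le
        rw [hη1]
        linarith
      have n1 := hcomp v1 hv1 hv1v
      have n2 := CNV_mul hη1p n1 hnr
      have n3 : EN.nr (3 * η1) ((D.fl 0 v1 g)⁻¹ * ((w (j + 1)).1 * kM ((i' : ℝ) * (Real.pi / 2)))) := by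
        have e1 : (D.fl 0 v1 g)⁻¹ * ((w (j + 1)).1 * kM ((i' : ℝ) * (Real.pi / 2))) =
          (D.fl 0 v1 g)⁻¹ * D.fl E v1 g *
            ((D.fl E v1 g)⁻¹ * (w (j + 1)).1 * kM ((i' : ℝ) * (Real.pi / 2))) := by group
        rw [e1]
        refine CNV_mono ?_ n2
        have e2 : η1 * r ≤ η1 * (1 / 8) := mul_le_mul_of_nonneg_left hr8 hη1p.le
        linarith
      have hexp2 : Real.exp (C * v1) * Real.exp (C * v2) = Real.exp (C * v) := by
        rw [← Real.exp_add, ← mul_add, add_comm v1 v2, hv12]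
      have n4 := hF 0 (w (j + 1)).2 v2 (3 * η1) (D.fl 0 v1 g)
        ((w (j + 1)).1 * kM ((i' : ℝ) * (Real.pi / 2))) h08 hE' (by positivity) n3
        (by rw [zero_sub, abs_neg]; linarith) (by
          rw [abs_of_nonneg hv2, hη1]
          calc 3 * (C * ρ1 * Real.exp (C * v1)) * Real.exp (C * v2) =
              3 * C * ρ1 * (Real.exp (C * v1) * Real.exp (C * v2)) := by ring
            _ ≤ c0 := by rw [hexp2]; exact hc)
      rw [abs_of_nonneg hv2, ← hadd 0 h08, hv12] at n4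
      have e3 : C * (3 * η1) * Real.exp (C * v2) = 3 * C ^ 2 * ρ1 * Real.exp (C * v) := by
        rw [hη1, ← hexp2]
        ring
      rw [e3] at n4
      have e4 : D.fl (w (j + 1)).2 v2 ((w (j + 1)).1 * kM ((i' : ℝ) * (Real.pi / 2))) =
          frZ D t w (s + v) * kM ((i' : ℝ) * (Real.pi / 2)) := by
        rw [hA, h]
        have e5 := CNV_rev (fl := D.fl (w (j + 1)).2) (hrev _ hE') i' v2 (w (j + 1)).1
        have e6 : ((-1 : ℝ)) ^ i' * v2 = v2 := by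
          rcases hi' with rfl | rfl <;> norm_num
        rw [e6] at e5
        rw [← e5, hv2d]
        push_cast
        rfl
      rw [e4] at n4
      exact n4
    rcases CNV_bo hb with h1 | h1
    · exact ⟨0, Or.inl rfl, key 0 (Or.inl rfl) h1⟩
    · exact ⟨2, Or.inr rfl, key 2 (Or.inr rfl) h1⟩

/-- short times -/
theorem CNV_short {D : Dyn} {C' : ℝ} (hC' : 1 ≤ C')
    (hadd : ∀ (s t : ℝ) (g : SL(2, ℝ)), D.fl 0 (s + t) g = D.fl 0 s (D.fl 0 t g))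
    (hfl0 : ∀ g, D.fl 0 0 g = g)
    (hst : ∀ (u : ℝ) (g : SL(2, ℝ)), |u| ≤ 1 → ∃ ρ : ℝ, |ρ| ≤ 2 ∧
      dist (D.fl 0 u g • I : ℍ) ((g * aM (ρ * u)) • I) ≤ C' * u ^ 2)
    (v : ℝ) (hv : |v| ≤ 1) (z : SL(2, ℝ)) : dist (D.fl 0 v z • I : ℍ) (z • I) ≤ 3 := by
  have h1 : ∀ (u : ℝ) (g : SL(2, ℝ)), |u| ≤ 1 →
      dist (D.fl 0 u g • I : ℍ) (g • I) ≤ C' * u ^ 2 + 2 * |u| := by
    intro u g hu
    obtain ⟨ρ, hρ, hd⟩ := hst u g hu
    refine (dist_triangle _ ((g * aM (ρ * u)) • I : ℍ) _).trans (add_le_add hd ?_)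
    rw [CNV_dist, ← mul_assoc, inv_mul_cancel, one_mul]
    refine (CNV_aI _).trans ?_
    rw [abs_mul]
    exact mul_le_mul_of_nonneg_right hρ (abs_nonneg _)
  set n := ⌈C'⌉₊ with hn
  have hnC : C' ≤ n := Nat.le_ceil C'
  have hn0 : (0 : ℝ) < n := by linarith
  set u := v / n with hu
  have hu1 : |u| ≤ 1 := by
    rw [hu, abs_div, abs_of_pos hn0, div_le_one hn0]
    linarith
  have h2 : ∀ k : ℕ, dist (D.fl 0 (k * u) z • I : ℍ) (z • I) ≤ k * (C' * u ^ 2 + 2 * |u|) := by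
    intro k
    induction k with
    | zero =>
      simp [hfl0]
    | succ k ih =>
      have e1 : (((k + 1 : ℕ) : ℝ)) * u = u + k * u := by push_cast; ring
      rw [e1, hadd]
      refine (dist_triangle _ (D.fl 0 (k * u) z • I : ℍ) _).trans ?_
      have e2 := h1 u (D.fl 0 (k * u) z) hu1
      push_cast
      linarith
  have h3 := h2 n
  have e1 : (n : ℝ) * u = v := by rw [hu]; field_simp
  rw [e1] at h3
  refine h3.trans ?_
  have e2 : (n : ℝ) * (C' * u ^ 2 + 2 * |u|) = C' * v ^ 2 / n + 2 * |v| := by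
    have e3 : |u| = |v| / n := by rw [hu, abs_div, abs_of_pos hn0]
    rw [e3, hu]
    field_simp
  rw [e2]
  have e4 : v ^ 2 ≤ 1 := by
    rw [← sq_abs]
    nlinarith [abs_nonneg v]
  have e5 : C' * v ^ 2 / n ≤ 1 := by
    rw [div_le_one hn0]
    nlinarith
  linarith

theorem CNV_proof (hFLB : FLB_stmt) (hFLG : FLG_stmt) (hFST : FST_stmt) : CNV_stmt := by
  intro Γ hΓ
  obtain ⟨δ1, hδ1, hB⟩ := hFLB Γ hΓ
  obtain ⟨δ2, C, c0, hδ2, hC, hc0, hG⟩ := hFLG Γ hΓ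
  obtain ⟨δ3, C', hδ3, hC', hS⟩ := hFST Γ hΓ
  refine ⟨min δ1 (min δ2 δ3), C, lt_min hδ1 (lt_min hδ2 hδ3), hC, fun C2 hC2 => ?_⟩
  have hC0 : 0 < C := by linarith
  set K : ℝ := 12 * C ^ 3 * Real.exp C * C2 with hK
  have hexpC : 1 ≤ Real.exp C := Real.one_le_exp hC0.le
  have hC3 : 1 ≤ C ^ 3 := one_le_pow₀ hC
  have hK0 : 0 < K := by positivity
  set m : ℝ := min c0 (1 / 8) with hm
  have hm0 : 0 < m := lt_min hc0 (by norm_num)
  refine ⟨min (1 / 8) ((m / K) ^ 2), lt_min (by norm_num) (by positivity), min_le_left _ _, ?_⟩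
  intro B D ρ1 hD hρ hρ10
  have hD1 : OKD Γ δ1 B D := CNV_ok hD (min_le_left _ _)
  have hD2 : OKD Γ δ2 B D := CNV_ok hD ((min_le_right _ _).trans (min_le_left _ _))
  have hD3 : OKD Γ δ3 B D := CNV_ok hD ((min_le_right _ _).trans (min_le_right _ _))
  have hρ8 : ρ1 ≤ 1 / 8 := hρ10.trans (min_le_left _ _)
  have h08 : |(0 : ℝ)| ≤ 1 / 8 := by norm_num
  have hadd : ∀ E : ℝ, |E| ≤ 1 / 8 → ∀ (s t : ℝ) (g : SL(2, ℝ)),
      D.fl E (s + t) g = D.fl E s (D.fl E t g) := fun E hE => (hB B D hD1 E hE).1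
  have hrev : ∀ E : ℝ, |E| ≤ 1 / 8 → ∀ (t : ℝ) (g : SL(2, ℝ)),
      D.fl E (-t) (g * kM (Real.pi / 2)) = D.fl E t g * kM (Real.pi / 2) :=
    fun E hE => (hB B D hD1 E hE).2.2
  have hF : CNV_G D C c0 := fun E E' t η g g' => hG B D hD2 E E' t η g g'
  set q : ℝ := √ρ1 with hq
  have hq0 : 0 < q := Real.sqrt_pos.2 hρ
  have hqq : ρ1 = q * q := (Real.mul_self_sqrt hρ.le).symm
  have hqr : ρ1 ^ (-(1 / 2) : ℝ) = q⁻¹ := by
    rw [Real.rpow_neg hρ.le, ← Real.sqrt_eq_rpow]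
  have hqm : K * q ≤ m := by
    have h1 : q ≤ m / K := by
      rw [hq]
      apply Real.sqrt_le_iff.2
      exact ⟨by positivity, hρ10.trans (min_le_right _ _)⟩
    rw [le_div_iff₀ hK0] at h1
    linarith
  have hρe : ∀ u : ℝ, Real.exp u ≤ ρ1 ^ (-(1 / 2) : ℝ) → ρ1 * Real.exp u ≤ q := by
    intro u hu
    rw [hqr] at hu
    calc ρ1 * Real.exp u ≤ ρ1 * q⁻¹ := mul_le_mul_of_nonneg_left hu hρ.le
      _ = q := by rw [hqq]; field_simp
  have hmc : m ≤ c0 := min_le_left _ _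
  have hm8 : m ≤ 1 / 8 := min_le_right _ _
  refine ⟨?_, ?_, ?_⟩
  · -- (1)
    intro x y s i hs hnr
    have h1 : C2 * ρ1 * Real.exp (C * |s|) ≤ C2 * q := by
      have := mul_le_mul_of_nonneg_left (hρe _ hs) (by linarith : (0 : ℝ) ≤ C2)
      linarith
    have hKC : C * C2 ≤ K := by
      have e1 : C ≤ 12 * C ^ 3 * Real.exp C := by
        have e2 : C ≤ C ^ 3 := by nlinarith [mul_pos hC0 hC0]
        have e3 : C ^ 3 ≤ C ^ 3 * Real.exp C := le_mul_of_one_le_right (by positivity) hexpC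
        have e4 : 0 < C ^ 3 * Real.exp C := by positivity
        linarith
      rw [hK]
      exact mul_le_mul_of_nonneg_right e1 (by linarith)
    have hCq : C * (C2 * q) ≤ m := by
      have := mul_le_mul_of_nonneg_right hKC hq0.le
      linarith
    have hC2q : C2 * q ≤ C * (C2 * q) := le_mul_of_one_le_left (by positivity) hC
    have h2 := hF 0 0 s (C2 * ρ1) x (y * kM (i * (Real.pi / 2))) h08 h08 (by positivity)
      (by rw [← mul_assoc]; exact hnr) (by rw [sub_self, abs_zero]; positivity) (by linarith)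
    rw [dist_comm, CNV_dist]
    refine CNV_nr (by positivity) ?_ h2
    have h3 := mul_le_mul_of_nonneg_left h1 hC0.le
    have h4 : C * (C2 * ρ1) * Real.exp (C * |s|) = C * (C2 * ρ1 * Real.exp (C * |s|)) := by ring
    rw [h4]
    linarith
  · -- (2)
    intro y s v i hv hv1
    rw [CNV_rev (fl := D.fl 0) (hrev 0 h08) i v y, ← hadd 0 h08, add_comm, hadd 0 h08]
    apply CNV_short hC' (hadd 0 h08) (fun g => hD1.fl0 0 g)
    · intro u g hu
      obtain ⟨r1, r2, r3⟩ := (hS B D hD3).2 0 g h08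
      exact ⟨rho D.U 0 g, by rw [abs_of_nonneg (by linarith)]; exact r2,
        (r3 1 u one_pos le_rfl hu).2⟩
    · rw [abs_mul, abs_pow, abs_neg, abs_one, one_pow, one_mul, abs_of_nonneg hv]
      exact hv1
  · -- (3)
    intro t r N w ht hr hrρ hJP s v x i hs hv hvt hsv he1 he2 hvx
    rcases hv.eq_or_lt with hv0 | hv0
    · rw [← hv0, add_zero, hD1.fl0, dist_self]
      norm_num
    have hex : ρ1 * (Real.exp (C * v) * Real.exp (C * |x|)) ≤ Real.exp C * q := by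
      rcases hvx with h | h | h
      · exact absurd h hv0.ne'
      · rw [h, abs_zero, mul_zero, Real.exp_zero, mul_one]
        have := hρe _ he1
        nlinarith
      · have e1 : Real.exp (C * v) ≤ Real.exp C := Real.exp_le_exp.2 (by nlinarith)
        have e2 := hρe _ he2
        have e3 : 0 ≤ ρ1 * Real.exp (C * |x|) := by positivity
        calc ρ1 * (Real.exp (C * v) * Real.exp (C * |x|)) =
            Real.exp (C * v) * (ρ1 * Real.exp (C * |x|)) := by ring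
          _ ≤ Real.exp C * q := mul_le_mul e1 e2 e3 (by positivity)
    have hbig : C * (4 * (3 * C ^ 2 * ρ1 * Real.exp (C * v))) * Real.exp (C * |x|) ≤ m := by
      calc C * (4 * (3 * C ^ 2 * ρ1 * Real.exp (C * v))) * Real.exp (C * |x|) =
          12 * C ^ 3 * (ρ1 * (Real.exp (C * v) * Real.exp (C * |x|))) := by ring
        _ ≤ 12 * C ^ 3 * (Real.exp C * q) := mul_le_mul_of_nonneg_left hex (by positivity)
        _ ≤ 12 * C ^ 3 * (Real.exp C * q) * C2 := le_mul_of_one_le_right (by positivity) hC2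
        _ = K * q := by rw [hK]; ring
        _ ≤ m := hqm
    have hη : 0 < 3 * C ^ 2 * ρ1 * Real.exp (C * v) := by positivity
    have hx1 : 1 ≤ Real.exp (C * |x|) := Real.one_le_exp (by positivity)
    have hmid : 4 * (3 * C ^ 2 * ρ1 * Real.exp (C * v)) * Real.exp (C * |x|) ≤ m := by
      have e1 : 0 ≤ 4 * (3 * C ^ 2 * ρ1 * Real.exp (C * v)) * Real.exp (C * |x|) := by positivity
      have e2 : 4 * (3 * C ^ 2 * ρ1 * Real.exp (C * v)) * Real.exp (C * |x|) ≤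
          C * (4 * (3 * C ^ 2 * ρ1 * Real.exp (C * v)) * Real.exp (C * |x|)) :=
        le_mul_of_one_le_left e1 hC
      have e3 : C * (4 * (3 * C ^ 2 * ρ1 * Real.exp (C * v)) * Real.exp (C * |x|)) =
          C * (4 * (3 * C ^ 2 * ρ1 * Real.exp (C * v))) * Real.exp (C * |x|) := by ring
      linarith
    have hc : 3 * C * ρ1 * Real.exp (C * v) ≤ c0 := by
      have e1 : 3 * C * ρ1 * Real.exp (C * v) ≤ 3 * C ^ 2 * ρ1 * Real.exp (C * v) := by
        have e2 : 0 ≤ 3 * C * (ρ1 * Real.exp (C * v)) := by positivity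
        have e3 : 3 * C * (ρ1 * Real.exp (C * v)) ≤ C * (3 * C * (ρ1 * Real.exp (C * v))) :=
          le_mul_of_one_le_left e2 hC
        have e4 : C * (3 * C * (ρ1 * Real.exp (C * v))) = 3 * C ^ 2 * ρ1 * Real.exp (C * v) := by
          ring
        have e5 : 3 * C * (ρ1 * Real.exp (C * v)) = 3 * C * ρ1 * Real.exp (C * v) := by ring
        linarith
      have e6 : 3 * C ^ 2 * ρ1 * Real.exp (C * v) ≤
          4 * (3 * C ^ 2 * ρ1 * Real.exp (C * v)) * Real.exp (C * |x|) := by nlinarith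
      linarith
    obtain ⟨i', hi', hnr⟩ := CNV_chain hC hF hadd hrev hρ hρ8 ht hr hrρ hJP s v hs hv0 hvt hsv hc
    have hfin := CNV_fin hC hF x (i * (Real.pi / 2)) _ _ _ hη hnr (hmid.trans hmc) (hbig.trans hm8)
    have hcm : frZ D t w (s + v) * kM ((i' : ℝ) * (Real.pi / 2)) * kM (i * (Real.pi / 2)) =
        frZ D t w (s + v) * kM (i * (Real.pi / 2)) * kM ((i' : ℝ) * (Real.pi / 2)) := by
      rw [mul_assoc, mul_assoc, ← CNV_kadd, ← CNV_kadd, add_comm ((i' : ℝ) * (Real.pi / 2))]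
    have hsg : ((-1 : ℝ)) ^ i' * x = x := by
      rcases hi' with rfl | rfl <;> norm_num
    have h5 := CNV_rev (fl := D.fl 0) (hrev 0 h08) i' x (frZ D t w (s + v) * kM (i * (Real.pi / 2)))
    rw [hsg] at h5
    rw [hcm, ← h5, mul_smul, CNV_kI] at hfin
    exact hfin

end

end Pool.Agent.VQ
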